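import Pool.Agent.P.MP_4bfc47_co.All.Graph

/-! The deterministic part of the construction for the graphs `HG σ r`. -/

set_option autoImplicit false
set_option linter.unusedSectionVars false

namespace Pool.Agent.P.MP_4bfc47_co.All
open Finset

variable {V : Type*} [DecidableEq V] {σ r : ℕ}

theorem leaves_mem {G : SimpleGraph V} (hσ : 2 ≤ σ) (hr : 0 < r) (S B : Finset V)
    (hS : ∀ x y, G.Adj x y → x ∉ B → y ∉ B → x ∈ S)
    (hB : ∀ x y, G.Adj x y → x ∈ B → y ∉ B)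
    (h0 : ∀ y x x' w, y ∈ B → w ∉ B → x ≠ x' → G.Adj y x → G.Adj y x' →
      G.Adj w x → G.Adj w x' → False)
    (h1 : ∀ X Y : Finset V, #X = 2 → #Y = 3 →
      (∀ x ∈ X, ∀ y ∈ Y, x ∉ B ∧ y ∉ B ∧ G.Adj x y) → False)
    (h3 : ∀ X Y : Finset V, #X = 2 → #Y = r →
      (∀ x ∈ X, ∀ y ∈ Y, x ∈ B ∧ y ∈ S ∧ G.Adj x y) → False)
    (f : (HG σ r).Copy G) (k : Fin r ⊕ Fin 2) : f (vb k) ∈ B := by
  have ad : ∀ {x y}, (HG σ r).Adj x y → G.Adj (f x) (f y) := fun h => f.toHom.map_adj h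
  have ne : ∀ {x y}, x ≠ y → f x ≠ f y := fun h => f.injective.ne h
  let i0 : Fin σ := ⟨0, by omega⟩
  let i1 : Fin σ := ⟨1, by omega⟩
  have n01 : (vc i0 : W σ r) ≠ vc i1 := by simp [i0, i1]
  have cX : #({f (vc i0), f (vc i1)} : Finset V) = 2 := card_pair (ne n01)
  have nd : (vb (.inr 0) : W σ r) ≠ vb (.inr 1) := by simp
  by_contra hk
  by_cases hb : ∃ j, f (vb j) ∈ B
  · obtain ⟨j, hj⟩ := hb
    exact h0 _ _ _ _ hj hk (ne n01) (ad (adj_cb i0 j).symm) (ad (adj_cb i1 j).symm)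
      (ad (adj_cb i0 k).symm) (ad (adj_cb i1 k).symm)
  push Not at hb
  by_cases hc : ∃ i, f (vc i) ∈ B
  · obtain ⟨i, hi⟩ := hc
    have ha : f va ∈ B := by
      by_contra ha
      exact h0 _ _ _ _ hi ha (ne nd) (ad (adj_cb i _)) (ad (adj_cb i _)) (ad (adj_ab 0))
        (ad (adj_ab 1))
    have hall : ∀ i', f (vc i') ∈ B := fun i' => by
      by_contra ha
      exact h0 _ _ _ _ hi ha (ne nd) (ad (adj_cb i _)) (ad (adj_cb i _)) (ad (adj_cb i' _))
        (ad (adj_cb i' _))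
    refine h3 _ (univ.image fun j => f (vb (.inl j))) cX ?_ fun x hx y hy => ?_
    · rw [card_image_of_injective _ fun j j' h => by simpa using f.injective h]; simp
    · obtain ⟨j, -, rfl⟩ := mem_image.mp hy
      have := hS _ _ (ad (adj_zb j).symm) (hb _) (hB _ _ (ad (adj_az j)) ha)
      rcases mem_insert.mp hx with rfl | hx
      · exact ⟨hall _, this, ad (adj_cb _ _)⟩
      · obtain rfl := mem_singleton.mp hx; exact ⟨hall _, this, ad (adj_cb _ _)⟩
  · push Not at hc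
    refine h1 _ {f (vb (.inr 0)), f (vb (.inr 1)), f (vb (.inl ⟨0, hr⟩))} cX
      (card_eq_three.mpr ⟨_, _, _, ne nd, ne (by simp), ne (by simp), rfl⟩) ?_
    simp only [mem_insert, mem_singleton, forall_eq_or_imp, forall_eq]
    simp only [hb, hc, ad (adj_cb _ _), not_false_eq_true, and_self]

section general
variable {ι : Type*} [DecidableEq ι]

open Classical in
/-- The members of a family of edge sets that meet `x`. -/
noncomputable def thruG (J : Finset ι) (F : ι → Finset (Sym2 V)) (x : V) : Finset ι :=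
  J.filter fun i => ∃ y, s(x, y) ∈ F i

theorem mem_thruG {J : Finset ι} {F : ι → Finset (Sym2 V)} {x : V} {i : ι} :
    i ∈ thruG J F x ↔ i ∈ J ∧ ∃ y, s(x, y) ∈ F i := by
  simp only [thruG, mem_filter]

/-- There are `k` disjoint members through `x` present in `R`. -/
def ManyG (J : Finset ι) (F : ι → Finset (Sym2 V)) (k : ℕ) (R : Finset (Sym2 V)) (x : V) : Prop :=
  ∃ I ⊆ thruG J F x, k ≤ #I ∧ (I : Set ι).PairwiseDisjoint F ∧ ∀ i ∈ I, F i ⊆ R

theorem exists_cleanG (J : Finset ι) (F : ι → Finset (Sym2 V)) (k c : ℕ) (hc : 0 < c)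
    (hJ : ∀ i ∈ J, #(F i) = c) (R : Finset (Sym2 V)) :
    ∃ D : Finset (Sym2 V), (∀ i ∈ J, ¬ F i ⊆ R \ D) ∧
      ∀ x, ¬ ManyG J F k R x → ∀ T, #(nb D x T) ≤ c * k := by
  classical
  obtain ⟨I, hI, hd, hR, hmax⟩ := exists_maximal_family J F
    (fun q hq => card_pos.mp (by rw [hJ q hq]; exact hc)) R
  refine ⟨_, hmax, fun x hx T => ?_⟩
  have h1 : #(thruG I F x) ≤ k := by
    by_contra hc
    refine hx ⟨thruG I F x, filter_subset_filter _ hI, by omega,
      hd.subset (by exact_mod_cast filter_subset _ _), fun q hq => hR q (mem_filter.mp hq).1⟩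
  calc _ = #((nb (I.biUnion F) x T).image fun y => s(x, y)) :=
        (card_image_of_injective _ (mk_right_injective x)).symm
    _ ≤ #((thruG I F x).biUnion F) := by
        refine card_le_card fun e he => ?_
        obtain ⟨y, hy, rfl⟩ := mem_image.mp he
        obtain ⟨q, hq, hK⟩ := mem_biUnion.mp (mem_nb.mp hy).2
        exact mem_biUnion.mpr ⟨q, mem_filter.mpr ⟨hq, y, hK⟩, hK⟩
    _ ≤ #(thruG I F x) * c := card_biUnion_le_card_mul _ _ _ fun q hq =>
        (hJ q (hI (mem_filter.mp hq).1)).le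
    _ ≤ c * k := by rw [mul_comm]; exact Nat.mul_le_mul_left _ h1

end general

variable [Fintype V]

/-- Index of the leaves. -/
abbrev Lf (r : ℕ) := Fin r ⊕ Fin 2

/-- The neighbours of the leaves. -/
def att (o : Option (Fin σ) × Lf r) : W σ r := o.1.elim (o.2.elim vz fun _ => va) vc

theorem adj_att (o : Option (Fin σ) × Lf r) : (HG σ r).Adj (vb o.2) (att o) := by
  obtain ⟨_ | i, j | d⟩ := o
  exacts [(adj_zb j).symm, (adj_ab d).symm, (adj_cb i _).symm, (adj_cb i _).symm]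

theorem att_inj {o o' : Option (Fin σ)} {j : Lf r} (h : att (o, j) = att (o', j)) : o = o' := by
  rcases o with _ | i <;> rcases o' with _ | i' <;> rcases j with j | d <;> simp_all [att]

/-- Maps into a closed neighbourhood. -/
def Bl (r : ℕ) (S : Finset V) (Q : Finset (Sym2 V)) (w : V) : Finset (Lf r → V) :=
  Fintype.piFinset fun _ => insert w (nb Q w S)

/-- The edges of a configuration. -/
def Ed (q : (Fin σ ⊕ Lf r → V) × (Lf r → V)) : Finset (Sym2 V) :=
  univ.image fun o : Option (Fin σ) × Lf r =>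
    s(o.1.elim (q.2 o.2) fun i => q.1 (.inl i), q.1 (.inr o.2))

/-- The configurations. -/
def J1 (σ r : ℕ) (S : Finset V) (Q : Finset (Sym2 V)) :
    Finset ((Fin σ ⊕ Lf r → V) × (Lf r → V)) :=
  (univ ×ˢ S.biUnion (Bl r S Q)).filter fun q => #(Ed q) = (σ + 1) * (r + 2)

theorem card_thru_J1 (S : Finset V) (Q : Finset (Sym2 V)) {L : ℕ} (hL : ∀ x, #(nb Q x S) ≤ L)
    (x : V) : #(thruG (J1 σ r S Q) Ed x) ≤
      (σ + (r + 2) + (L + 1)) * (L + 1) ^ (r + 2) * Fintype.card V ^ (σ + (r + 2)) := by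
  classical
  have b1 : ∀ w, #(insert w (nb Q w S)) ≤ L + 1 := fun w =>
    (card_insert_le _ _).trans (Nat.succ_le_succ (hL w))
  have b2 : ∀ w, #(Bl r S Q w) ≤ (L + 1) ^ (r + 2) := fun w => by
    rw [Bl, Fintype.card_piFinset, prod_const]
    simpa using Nat.pow_le_pow_left (b1 w) (r + 2)
  have b3 : #(S.biUnion (Bl r S Q)) ≤ Fintype.card V * (L + 1) ^ (r + 2) :=
    (card_biUnion_le_card_mul _ _ _ fun w _ => b2 w).trans
      (Nat.mul_le_mul_right _ (card_le_univ S))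
  have b4 : #((insert x (nb Q x S)).biUnion (Bl r S Q)) ≤ (L + 1) * (L + 1) ^ (r + 2) :=
    (card_biUnion_le_card_mul _ _ _ fun w _ => b2 w).trans (Nat.mul_le_mul_right _ (b1 x))
  have b5 : #(univ.biUnion fun k : Fin σ ⊕ Lf r =>
      (Fintype.piFinset fun _ : Fin σ ⊕ Lf r => (univ : Finset V)).filter fun φ => φ k = x) ≤
      (σ + (r + 2)) * Fintype.card V ^ (σ + (r + 1)) := by
    refine (card_biUnion_le_card_mul _ _ _ fun k _ =>
      (Fintype.card_filter_piFinset_const_eq_of_mem univ k (mem_univ x)).le).trans ?_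
    simp
  have b6 : #(univ : Finset (Fin σ ⊕ Lf r → V)) = Fintype.card V ^ (σ + (r + 2)) := by simp
  refine le_trans (card_le_card (t := ((univ.biUnion fun k : Fin σ ⊕ Lf r =>
      (Fintype.piFinset fun _ : Fin σ ⊕ Lf r => (univ : Finset V)).filter fun φ => φ k = x) ×ˢ
      S.biUnion (Bl r S Q)) ∪ (univ ×ˢ (insert x (nb Q x S)).biUnion (Bl r S Q))) ?_) ?_
  · rintro ⟨φ, g⟩ hq
    obtain ⟨h1, y, h2⟩ := mem_thruG.mp hq
    have h3 := (mem_product.mp (mem_filter.mp h1).1).2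
    obtain ⟨⟨o, j⟩, -, h4⟩ := mem_image.mp h2
    have h5 : ∀ k, φ k = x → (φ, g) ∈ ((univ.biUnion fun k : Fin σ ⊕ Lf r =>
        (Fintype.piFinset fun _ : Fin σ ⊕ Lf r => (univ : Finset V)).filter fun φ => φ k = x) ×ˢ
        S.biUnion (Bl r S Q)) ∪ (univ ×ˢ (insert x (nb Q x S)).biUnion (Bl r S Q)) := fun k hk =>
      mem_union_left _ (mem_product.mpr ⟨mem_biUnion.mpr ⟨k, mem_univ _, by simpa using hk⟩, h3⟩)
    rcases Sym2.eq_iff.mp h4 with ⟨h6, -⟩ | ⟨-, h6⟩
    · rcases o with _ | i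
      · obtain ⟨w, hw, h7⟩ := mem_biUnion.mp h3
        refine mem_union_right _ (mem_product.mpr ⟨mem_univ _, mem_biUnion.mpr ⟨w, ?_, h7⟩⟩)
        have h8 : g j = x := h6
        have h7' : g j ∈ insert w (nb Q w S) := Fintype.mem_piFinset.mp h7 j
        rcases mem_insert.mp (h8 ▸ h7' : x ∈ insert w (nb Q w S)) with h9 | h9
        · exact h9 ▸ mem_insert_self _ _
        · exact mem_insert_of_mem (mem_nb.mpr ⟨hw, Sym2.eq_swap ▸ (mem_nb.mp h9).2⟩)
      · exact h5 _ h6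
    · exact h5 _ h6
  · refine (card_union_le _ _).trans ?_
    rw [card_product, card_product, b6]
    refine (add_le_add (Nat.mul_le_mul b5 b3) (Nat.mul_le_mul_left _ b4)).trans (le_of_eq ?_)
    ring

/-- Vertices of `S` at distance two. -/
def N2' (S : Finset V) (Q : Finset (Sym2 V)) (x : V) : Finset V :=
  (nb Q x S).biUnion fun w => nb Q w S

/-- Good first exposure. -/
structure G1 (S : Finset V) (u L : ℕ) (Q : Finset (Sym2 V)) : Prop where
  indep : ∀ q ∈ S.powerset ×ˢ S.powerset, #q.1 = u → #q.2 = u → Disjoint q.1 q.2 →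
    ¬ Disjoint (K q.1 q.2) Q
  noK : ∀ q ∈ S.powersetCard 2 ×ˢ S.powersetCard 3, Disjoint q.1 q.2 → ¬ K q.1 q.2 ⊆ Q
  degS : ∀ x, #(nb Q x S) ≤ L

/-- Good second exposure. -/
structure G2 (σ r : ℕ) (S B : Finset V) (k : ℕ) (l : ℝ) (Q R : Finset (Sym2 V)) : Prop where
  lowA : ∀ x ∈ Bᶜ, l ≤ #(nb R x B)
  lowB : ∀ x ∈ B, l ≤ #(nb R x Bᶜ)
  few0 : ∀ x, ¬ Many (fam B S 0 (N2' S Q) 1) k R x
  few3 : ∀ x, ¬ Many (fam B S 1 (fun _ => S) r) k R x
  few1 : ∀ x, ¬ ManyG (J1 σ (r + 1) S Q) Ed k R x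

theorem exists_graph {S B : Finset V} {u L k : ℕ} {l : ℝ} {Q R : Finset (Sym2 V)} (hσ : 2 ≤ σ)
    (hBS : Disjoint B S) (g : G1 S u L Q) (g' : G2 σ r S B k l Q R) (C : ℕ)
    (hC : C * (2 * u) < #S) :
    ∃ G : SimpleGraph V, (∀ x y, G.Adj x y → s(x, y) ∈ Q ∪ R) ∧ (HG σ (r + 1)).Free G ∧
      (∀ x, l ≤ ((G.neighborSet x).ncard : ℝ) + ((σ + 5) * (r + 3) * k : ℕ)) ∧
      ¬ G.Colorable C := by
  classical
  obtain ⟨D0, hD0, hD0'⟩ := exists_clean (fam B S 0 (N2' S Q) 1) k _ (by norm_num)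
    (card_K_fam hBS) R
  obtain ⟨D3, hD3, hD3'⟩ := exists_clean (fam B S 1 (fun _ => S) r) k _ (by positivity)
    (card_K_fam hBS) R
  obtain ⟨D1, hD1, hD1'⟩ := exists_cleanG (J1 σ (r + 1) S Q) Ed k _ (by positivity)
    (fun q hq => (mem_filter.mp hq).2) R
  let E : V → V → Prop := fun x y => (x ∈ S ∧ y ∈ S ∧ s(x, y) ∈ Q) ∨
    (x ∈ B ∧ y ∉ B ∧ s(x, y) ∈ R ∧ s(x, y) ∉ D0 ∧ s(x, y) ∉ D3 ∧ s(x, y) ∉ D1)
  have sb : ∀ {x}, x ∈ S → x ∉ B := fun h => disjoint_right.mp hBS h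
  let G : SimpleGraph V := SimpleGraph.fromRel E
  have hG : ∀ x y, G.Adj x y ↔ x ≠ y ∧ (E x y ∨ E y x) := fun x y => SimpleGraph.fromRel_adj E x y
  have fS : ∀ {x y}, G.Adj x y → x ∉ B → y ∉ B → x ∈ S ∧ y ∈ S ∧ s(x, y) ∈ Q := by
    intro x y h hx hy
    rcases ((hG x y).mp h).2 with (h | h) | (h | h)
    · exact h
    · exact absurd h.1 hx
    · exact ⟨h.2.1, h.1, Sym2.eq_swap ▸ h.2.2⟩
    · exact absurd h.1 hy
  have fB : ∀ {x y}, G.Adj x y → x ∈ B →
      y ∉ B ∧ s(x, y) ∈ R ∧ s(x, y) ∉ D0 ∧ s(x, y) ∉ D3 ∧ s(x, y) ∉ D1 := by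
    intro x y h hx
    rcases ((hG x y).mp h).2 with (h | h) | (h | h)
    · exact absurd hx (sb h.1)
    · exact h.2
    · exact absurd hx (sb h.2.1)
    · exact absurd hx h.2.1
  refine ⟨G, fun x y h => ?_, ?_, fun x => ?_, ?_⟩
  · rcases ((hG x y).mp h).2 with (h | h) | (h | h)
    · exact mem_union_left _ h.2.2
    · exact mem_union_right _ h.2.2.1
    · exact mem_union_left _ (Sym2.eq_swap ▸ h.2.2)
    · exact mem_union_right _ (Sym2.eq_swap ▸ h.2.2.1)
  · rintro ⟨f⟩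
    have hb := leaves_mem hσ r.succ_pos S B (fun x y h hx hy => (fS h hx hy).1)
      (fun x y h hx => (fB h hx).1) ?_ ?_ ?_ f
    · have ad : ∀ {x y}, (HG σ (r + 1)).Adj x y → G.Adj (f x) (f y) := fun h => f.toHom.map_adj h
      have ha : f va ∉ B := (fB (ad (adj_ab 0).symm) (hb _)).1
      have hz : ∀ j, f (vz j) ∉ B := fun j => (fB (ad (adj_zb j).symm) (hb _)).1
      let e : Option (Fin σ) × Lf (r + 1) → W σ (r + 1) := att
      have he : ∀ o, (HG σ (r + 1)).Adj (vb o.2) (e o) := adj_att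
      have hE : Ed (fun k => f (k.elim vc vb), fun j => f (e (none, j))) =
          univ.image fun o => s(f (e o), f (vb o.2)) :=
        image_congr fun o _ => by rcases o with ⟨_ | i, j⟩ <;> rfl
      refine hD1 (fun k => f (k.elim vc vb), fun j => f (e (none, j))) (mem_filter.mpr
        ⟨mem_product.mpr ⟨mem_univ _, mem_biUnion.mpr ⟨f va, (fS (ad (adj_az 0)) ha (hz 0)).1,
          Fintype.mem_piFinset.mpr ?_⟩⟩, ?_⟩) ?_
      · rintro (j | d)
        · exact mem_insert_of_mem (mem_nb.mpr (fS (ad (adj_az j)) ha (hz j)).2)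
        · exact mem_insert_self _ _
      · rw [hE, card_image_of_injective]
        · simp
        · rintro ⟨o, j⟩ ⟨o', j'⟩ h
          rcases Sym2.eq_iff.mp h with ⟨h1, h2⟩ | ⟨h1, -⟩
          · obtain rfl : j = j' := by simpa using f.injective h2
            rw [att_inj (f.injective h1)]
          · exact absurd (hb j') (h1 ▸ (fB (ad (he (o, j))) (hb j)).1)
      · rw [hE]
        intro x hx
        obtain ⟨o, -, rfl⟩ := mem_image.mp hx
        have := fB (ad (he o)) (hb _)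
        rw [Sym2.eq_swap]
        exact mem_sdiff.mpr ⟨this.2.1, this.2.2.2.2⟩
    · intro y x x' w hy hw hne e1 e2 e3 e4
      have s1 := fS e3 hw (fB e1 hy).1
      have s2 := fS e4 hw (fB e2 hy).1
      refine hD0 ({y}, {x, x'}) (mem_fam.mpr ⟨by simpa using hy, card_singleton _,
        by simp [insert_subset_iff, s1.2.1, s2.2.1], card_pair hne, fun v hv v' hv' => ?_⟩) ?_
      · have key : ∀ v ∈ ({x, x'} : Finset V), v ∈ S ∧ s(w, v) ∈ Q := by
          simp only [mem_insert, mem_singleton, forall_eq_or_imp, forall_eq]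
          exact ⟨s1.2, s2.2⟩
        exact mem_biUnion.mpr ⟨w, mem_nb.mpr ⟨s1.1, Sym2.eq_swap ▸ (key v hv).2⟩,
          mem_nb.mpr (key v' (mem_of_mem_erase hv'))⟩
      · refine K_subset_iff.mpr ?_
        simp only [mem_insert, mem_singleton, forall_eq_or_imp, forall_eq, mem_sdiff]
        exact ⟨⟨(fB e1 hy).2.1, (fB e1 hy).2.2.1⟩, (fB e2 hy).2.1, (fB e2 hy).2.2.1⟩
    · intro X Y hX hY h
      have h' := fun x hx y hy => fS (h x hx y hy).2.2 (h x hx y hy).1 (h x hx y hy).2.1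
      obtain ⟨x0, hx0⟩ : X.Nonempty := card_pos.mp (by omega)
      obtain ⟨y0, hy0⟩ : Y.Nonempty := card_pos.mp (by omega)
      refine g.noK (X, Y) (mem_product.mpr
        ⟨mem_powersetCard.mpr ⟨fun x hx => (h' x hx y0 hy0).1, hX⟩,
          mem_powersetCard.mpr ⟨fun y hy => (h' x0 hx0 y hy).2.1, hY⟩⟩)
        (disjoint_left.mpr fun x hx hx' => (h x hx x hx').2.2.ne rfl)
        (K_subset_iff.mpr fun x hx y hy => (h' x hx y hy).2.2)
    · intro X Y hX hY h
      obtain ⟨x0, hx0⟩ : X.Nonempty := card_pos.mp (by omega)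
      obtain ⟨y0, hy0⟩ : Y.Nonempty := card_pos.mp (by omega)
      have hY' : Y ⊆ S := fun y hy => (h x0 hx0 y hy).2.1
      refine hD3 (X, Y) (mem_fam.mpr ⟨fun x hx => (h x hx y0 hy0).1, hX, hY', hY,
        fun y _ => (erase_subset _ _).trans hY'⟩) (K_subset_iff.mpr fun x hx y hy => ?_)
      have := fB (h x hx y hy).2.2 (h x hx y hy).1
      exact mem_sdiff.mpr ⟨this.2.1, this.2.2.2.1⟩
  · have key : ∀ T : Finset V, (∀ y ∈ T, s(x, y) ∈ R → s(x, y) ∉ D0 → s(x, y) ∉ D3 →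
        s(x, y) ∉ D1 → G.Adj x y) → l ≤ #(nb R x T) →
        l ≤ ((G.neighborSet x).ncard : ℝ) + ((σ + 5) * (r + 3) * k : ℕ) := by
      intro T h1 h2
      have a0 := hD0' x (g'.few0 x) T
      have a3 := hD3' x (g'.few3 x) T
      have a1 := hD1' x (g'.few1 x) T
      have h3 := le_card_sdiff (nb D0 x T) (nb R x T)
      have h4 := card_sdiff_two (nb R x T \ nb D0 x T) (nb D3 x T) (nb D1 x T)
      have h5 : #(((nb R x T \ nb D0 x T) \ nb D3 x T) \ nb D1 x T) ≤ (G.neighborSet x).ncard := by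
        rw [← Set.ncard_coe_finset]
        refine Set.ncard_le_ncard (fun y hy => ?_) (Set.toFinite _)
        simp only [mem_coe, mem_sdiff, mem_nb, not_and] at hy
        exact h1 y hy.1.1.1.1 hy.1.1.1.2 (hy.1.1.2 hy.1.1.1.1) (hy.1.2 hy.1.1.1.1)
          (hy.2 hy.1.1.1.1)
      refine h2.trans ?_
      have h6 : (0 + 1) * (1 + 1) * k + (1 + 1) * (r + 1) * k + (σ + 1) * (r + 1 + 2) * k ≤
          (σ + 5) * (r + 3) * k := by
        rw [← add_mul, ← add_mul]; exact Nat.mul_le_mul_right _ (by nlinarith)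
      have : #(nb R x T) ≤ (G.neighborSet x).ncard + (σ + 5) * (r + 3) * k := by omega
      exact_mod_cast this
    by_cases hx : x ∈ B
    · refine key Bᶜ (fun y hy a b c d => (hG x y).mpr ⟨fun h => mem_compl.mp hy (h ▸ hx),
        .inl (.inr ⟨hx, mem_compl.mp hy, a, b, c, d⟩)⟩) (g'.lowB x hx)
    · refine key B (fun y hy a b c d => (hG x y).mpr ⟨fun h => hx (h ▸ hy),
        .inr (.inr ?_)⟩) (g'.lowA x (mem_compl.mpr hx))
      rw [Sym2.eq_swap]; exact ⟨hy, hx, a, b, c, d⟩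
  · rintro ⟨f⟩
    obtain ⟨i, -, hi⟩ := exists_lt_card_fiber_of_mul_lt_card_of_maps_to (s := S)
      (t := (univ : Finset (Fin C))) (f := f) (n := 2 * u) (fun _ _ => mem_univ _)
      (by simpa using hC)
    obtain ⟨U1, hU1, c1⟩ := exists_subset_card_eq (s := S.filter fun x => f x = i) (n := u)
      (by omega)
    obtain ⟨U2, hU2, c2⟩ := exists_subset_card_eq (s := (S.filter fun x => f x = i) \ U1) (n := u)
      (by rw [card_sdiff_of_subset hU1]; omega)
    have hU2' := hU2.trans sdiff_subset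
    have hd : Disjoint U1 U2 := disjoint_sdiff.mono_right hU2
    refine g.indep (U1, U2) ?_ c1 c2 hd ?_
    · rw [mem_product, mem_powerset, mem_powerset]
      exact ⟨hU1.trans (filter_subset _ _), hU2'.trans (filter_subset _ _)⟩
    · refine disjoint_left.mpr fun e he heQ => ?_
      obtain ⟨x, hx, y, hy, rfl⟩ := mem_K'.mp he
      have hx' := mem_filter.mp (hU1 hx)
      have hy' := mem_filter.mp (hU2' hy)
      have hadj : G.Adj x y := (hG x y).mpr ⟨fun h => disjoint_left.mp hd hx (h ▸ hy),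
        Or.inl (Or.inl ⟨hx'.1, hy'.1, heQ⟩)⟩
      exact f.valid hadj (hx'.2.trans hy'.2.symm)

end Pool.Agent.P.MP_4bfc47_co.All
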