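import Pool.Agent.P.MP_4bfc47_co.Link

/-! The graphs `HG σ r`: a complete bipartite graph and a vertex joined to one side by two edges
and `r` paths of length two. -/

set_option autoImplicit false
set_option linter.unusedSectionVars false

namespace Pool.Agent.P.MP_4bfc47_co.All
open Finset

/-- The vertices. -/
abbrev W (σ r : ℕ) := Fin σ ⊕ (Fin r ⊕ Fin 2) ⊕ (Unit ⊕ Fin r)

variable {σ r : ℕ}

/-- cloud vertices -/
abbrev vc (i : Fin σ) : W σ r := .inl i
/-- leaves -/
abbrev vb (j : Fin r ⊕ Fin 2) : W σ r := .inr (.inl j)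
/-- the centre -/
abbrev va : W σ r := .inr (.inr (.inl ()))
/-- subdivision vertices -/
abbrev vz (j : Fin r) : W σ r := .inr (.inr (.inr j))

/-- The edges. -/
def rel : W σ r → W σ r → Prop
  | .inl _, .inr (.inl _) => True
  | .inr (.inr (.inl _)), .inr (.inl (.inr _)) => True
  | .inr (.inr (.inl _)), .inr (.inr (.inr _)) => True
  | .inr (.inr (.inr j)), .inr (.inl (.inl k)) => j = k
  | _, _ => False

/-- The graph. -/
def HG (σ r : ℕ) : SimpleGraph (W σ r) := SimpleGraph.fromRel rel

theorem adj_iff {x y : W σ r} : (HG σ r).Adj x y ↔ x ≠ y ∧ (rel x y ∨ rel y x) :=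
  SimpleGraph.fromRel_adj _ _ _

theorem adj_cb (i : Fin σ) (j : Fin r ⊕ Fin 2) : (HG σ r).Adj (vc i) (vb j) := by
  simp [adj_iff, rel]

theorem adj_ab (d : Fin 2) : (HG σ r).Adj va (vb (.inr d)) := by simp [adj_iff, rel]

theorem adj_az (j : Fin r) : (HG σ r).Adj va (vz j) := by simp [adj_iff, rel]

theorem adj_zb (j : Fin r) : (HG σ r).Adj (vz j) (vb (.inl j)) := by simp [adj_iff, rel]

theorem rel_cases {x y : W σ r} (h : rel x y) : (∃ i j, x = vc i ∧ y = vb j) ∨
    (∃ d, x = va ∧ y = vb (.inr d)) ∨ (∃ j, x = va ∧ y = vz j) ∨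
    ∃ j, x = vz j ∧ y = vb (.inl j) := by
  rcases x with i | (j | d) | (u | j) <;> rcases y with i' | (j' | d') | (u' | j') <;>
    simp_all [rel]

/-- Subgraphs are sparse. -/
theorem edge_bound (hσ : 2 ≤ σ) (F : (HG σ r).Subgraph) (h3 : 3 ≤ F.verts.ncard) :
    F.edgeSet.ncard + 2 * σ ≤ σ * F.verts.ncard := by
  classical
  obtain ⟨T, hT⟩ := (Set.toFinite F.verts).exists_finset_coe
  rw [← hT, Set.ncard_coe_finset] at h3 ⊢
  have c1 := card_toLeft_add_card_toRight (u := T)
  have c2 := card_toLeft_add_card_toRight (u := T.toRight)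
  have c3 := card_toLeft_add_card_toRight (u := T.toRight.toLeft)
  have c4 := card_toLeft_add_card_toRight (u := T.toRight.toRight)
  have c5 : #T.toLeft ≤ σ := by simpa using card_le_univ T.toLeft
  have c6 : #T.toRight.toLeft.toRight ≤ 2 := by simpa using card_le_univ T.toRight.toLeft.toRight
  have c7 : #T.toRight.toRight.toLeft ≤ 1 := by simpa using card_le_univ T.toRight.toRight.toLeft
  have c8 := card_le_card (inter_subset_left (s₁ := T.toRight.toRight.toRight)
    (s₂ := T.toRight.toLeft.toLeft))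
  have c9 := card_le_card (inter_subset_right (s₁ := T.toRight.toRight.toRight)
    (s₂ := T.toRight.toLeft.toLeft))
  have key : F.edgeSet ⊆ ↑((((T.toLeft ×ˢ T.toRight.toLeft).image fun q => s(vc q.1, vb q.2)) ∪
      ((T.toRight.toRight.toLeft ×ˢ T.toRight.toLeft.toRight).image
        fun q => s((va : W σ r), vb (.inr q.2)))) ∪
      (((T.toRight.toRight.toLeft ×ˢ T.toRight.toRight.toRight).image fun q => s(va, vz q.2)) ∪
      ((T.toRight.toRight.toRight ∩ T.toRight.toLeft.toLeft).image
        fun j => s(vz j, vb (.inl j))))) := by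
    have aux : ∀ x y, x ∈ T → y ∈ T → rel x y → s(x, y) ∈
        (((T.toLeft ×ˢ T.toRight.toLeft).image fun q => s(vc q.1, vb q.2)) ∪
        ((T.toRight.toRight.toLeft ×ˢ T.toRight.toLeft.toRight).image
          fun q => s((va : W σ r), vb (.inr q.2)))) ∪
        (((T.toRight.toRight.toLeft ×ˢ T.toRight.toRight.toRight).image fun q => s(va, vz q.2)) ∪
        ((T.toRight.toRight.toRight ∩ T.toRight.toLeft.toLeft).image
          fun j => s(vz j, vb (.inl j)))) := by
      intro x y hx hy h
      simp only [mem_union, mem_image, mem_product, mem_toLeft, mem_toRight, mem_inter]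
      rcases rel_cases h with ⟨i, j, rfl, rfl⟩ | ⟨d, rfl, rfl⟩ | ⟨j, rfl, rfl⟩ | ⟨j, rfl, rfl⟩
      · exact .inl (.inl ⟨(i, j), ⟨hx, hy⟩, rfl⟩)
      · exact .inl (.inr ⟨((), d), ⟨hx, hy⟩, rfl⟩)
      · exact .inr (.inl ⟨((), j), ⟨hx, hy⟩, rfl⟩)
      · exact .inr (.inr ⟨j, ⟨hx, hy⟩, rfl⟩)
    intro e he
    induction e using Sym2.ind with
    | _ x y =>
      have h := SimpleGraph.Subgraph.mem_edgeSet.mp he
      have hx : x ∈ T := by rw [← mem_coe, hT]; exact h.fst_mem
      have hy : y ∈ T := by rw [← mem_coe, hT]; exact h.snd_mem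
      rcases (adj_iff.mp h.adj_sub).2 with h' | h'
      · exact aux x y hx hy h'
      · rw [Sym2.eq_swap]; exact aux y x hy hx h'
  have h := Set.ncard_le_ncard key (Set.toFinite _)
  rw [Set.ncard_coe_finset] at h
  replace h := h.trans ((card_union_le _ _).trans (add_le_add
    ((card_union_le _ _).trans (add_le_add card_image_le card_image_le))
    ((card_union_le _ _).trans (add_le_add card_image_le card_image_le))))
  simp only [card_product] at h
  rw [← c1, ← c2, ← c3, ← c4] at h3 ⊢
  rw [← c3] at h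
  generalize #T.toLeft = i at *
  generalize #T.toRight.toLeft.toLeft = b1 at *
  generalize #T.toRight.toLeft.toRight = b0 at *
  generalize #T.toRight.toRight.toLeft = a at *
  generalize #T.toRight.toRight.toRight = z at *
  generalize #(T.toRight.toRight.toRight ∩ T.toRight.toLeft.toLeft) = m at *
  generalize F.edgeSet.ncard = e at *
  clear key c1 c2 c3 c4 hT
  by_cases hi : 2 ≤ i
  · have e1 := Nat.mul_le_mul_right (b1 + b0) c5
    have e2 := Nat.mul_le_mul_right a hσ
    have e3 := Nat.mul_le_mul_right z hσ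
    have e4 := Nat.mul_le_mul_left σ hi
    have e5 := Nat.mul_le_mul_left a c6
    have e6 := Nat.mul_le_mul_right z c7
    nlinarith
  · obtain ⟨v, hv⟩ : ∃ v, i + (b1 + b0 + (a + z)) = v + 2 := ⟨i + (b1 + b0 + (a + z)) - 2, by omega⟩
    have e1 : e ≤ 2 * v := by
      have : i = 0 ∨ i = 1 := by omega
      have : a = 0 ∨ a = 1 := by omega
      rcases ‹i = 0 ∨ i = 1› with rfl | rfl <;> rcases ‹a = 0 ∨ a = 1› with rfl | rfl <;> omega
    have e2 := Nat.mul_le_mul_right v hσ
    rw [hv]; nlinarith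

end Pool.Agent.P.MP_4bfc47_co.All
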