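import Pool.Agent.P.MP_4bfc47_co.All.Det

/-! The probabilistic estimates and the choice of parameters for the graphs `HG σ r`. -/

set_option autoImplicit false
set_option linter.unusedSectionVars false

namespace Pool.Agent.P.MP_4bfc47_co.All
open Finset Filter Topology

variable {V : Type*} [DecidableEq V] [Fintype V] {Ω : Finset (Sym2 V)} {p : ℝ} {σ r : ℕ}

theorem Pr_not_G1 (h0 : 0 ≤ p) (h1 : p ≤ 1) {S : Finset V}
    (hΩ : ∀ x ∈ S, ∀ y ∈ S, x ≠ y → s(x, y) ∈ Ω) (u L : ℕ) :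
    Pr Ω p (fun Q => ¬ G1 S u L Q) ≤ 4 ^ #S * Real.exp (-(p * u ^ 2)) + (#S ^ 5 * p ^ 6 +
      Fintype.card V * Real.exp (3 * (#S * p) - L)) := by
  refine le_trans (Pr_mono h0 h1 fun Q _ hQ => ?_)
    ((Pr_or_le h0 h1 _ _).trans (add_le_add (Pr_indep h0 h1 hΩ u) ((Pr_or_le h0 h1 _ _).trans
      (add_le_add (Pr_K23 h0 h1 S) (Pr_deg h0 h1 S L)))))
  by_contra hc
  simp only [not_or, not_exists, not_and] at hc
  exact hQ ⟨hc.1, hc.2.1, fun x => (not_le.mp (hc.2.2 x (mem_univ _))).le⟩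

theorem Pr_not_G2 (h0 : 0 ≤ p) (h1 : p ≤ 1) {S B : Finset V} (hBS : Disjoint B S) {u L : ℕ}
    (k : ℕ) {ε : ℝ} (hε : 0 < ε) (hε1 : ε < 1) {Q : Finset (Sym2 V)} (g : G1 S u L Q)
    (hB : #B ≤ #Bᶜ) :
    Pr (K B Bᶜ) p (fun R => ¬ G2 σ r S B k ((1 - ε) ^ 2 * p * #B) Q R) ≤
      #Bᶜ * Real.exp (-(ε ^ 2 * p * #B)) + (#B * Real.exp (-(ε ^ 2 * p * #Bᶜ)) +
      (Fintype.card V * Real.exp (3 * (((#B ^ 0 * (#B + #S) * (L * L) ^ 1 : ℕ) : ℝ) *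
        p ^ ((0 + 1) * (1 + 1))) - k) +
      (Fintype.card V * Real.exp (3 * (((#B ^ 1 * (#B + #S) * #S ^ r : ℕ) : ℝ) *
        p ^ ((1 + 1) * (r + 1))) - k) +
      Fintype.card V * Real.exp (3 * ((((σ + (r + 1 + 2) + (L + 1)) * (L + 1) ^ (r + 1 + 2) *
        Fintype.card V ^ (σ + (r + 1 + 2)) : ℕ) : ℝ) * p ^ ((σ + 1) * (r + 1 + 2))) - k)))) := by
  classical
  have e1 := Pr_low (Ω := K B Bᶜ) h0 h1 (disjoint_compl_left (a := B))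
    (fun x hx y hy => mem_K.mpr (Or.inr ⟨hx, hy⟩)) hε hε1 le_rfl
  have e2 := Pr_low (Ω := K B Bᶜ) h0 h1 (disjoint_compl_right (a := B))
    (fun x hx y hy => mem_K.mpr (Or.inl ⟨hx, hy⟩)) hε hε1 (l := (1 - ε) ^ 2 * p * #B)
    (mul_le_mul_of_nonneg_left (by exact_mod_cast hB) (by positivity))
  have e3 := Pr_many (Ω := K B Bᶜ) h0 h1 hBS 0 1 (L * L) k (N2' S Q) fun y _ =>
    (card_biUnion_le_card_mul _ _ L fun w _ => g.degS w).trans (Nat.mul_le_mul_right _ (g.degS y))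
  have e4 := Pr_many (Ω := K B Bᶜ) h0 h1 hBS 1 r #S k (fun _ => S) fun _ _ => le_rfl
  have e5 := Pr_exists_le' (Ω := K B Bᶜ) h0 h1 univ
    (fun x R => ManyG (J1 σ (r + 1) S Q) Ed k R x) fun x _ =>
      Pr_ET h0 h1 (thruG (J1 σ (r + 1) S Q) Ed x) Ed k
        (μ := (((σ + (r + 1 + 2) + (L + 1)) * (L + 1) ^ (r + 1 + 2) *
          Fintype.card V ^ (σ + (r + 1 + 2)) : ℕ) : ℝ) * p ^ ((σ + 1) * (r + 1 + 2))) (by
        rw [sum_congr rfl (g := fun _ => p ^ ((σ + 1) * (r + 1 + 2)))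
          (fun q hq => by rw [(mem_filter.mp (mem_thruG.mp hq).1).2]), sum_const, nsmul_eq_mul]
        refine mul_le_mul_of_nonneg_right ?_ (by positivity)
        exact_mod_cast card_thru_J1 S Q g.degS x)
  refine le_trans (Pr_mono h0 h1 fun R _ hR => ?_)
    ((Pr_or_le h0 h1 _ _).trans (add_le_add e1 ((Pr_or_le h0 h1 _ _).trans (add_le_add e2
    ((Pr_or_le h0 h1 _ _).trans (add_le_add e3 ((Pr_or_le h0 h1 _ _).trans
      (add_le_add e4 e5))))))))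
  by_contra hc
  simp only [not_or, not_exists, not_and] at hc
  obtain ⟨c1, c2, c3, c4, c5⟩ := hc
  exact hR ⟨fun x hx => not_lt.mp (c1 x hx), fun x hx => not_lt.mp (c2 x hx),
    fun x => c3 x (mem_univ _), fun x => c4 x (mem_univ _), fun x => c5 x (mem_univ _)⟩

/-- The numerical hypotheses. -/
structure Nm (σ r C m n : ℕ) (p ε : ℝ) : Prop where
  hC : 5 * (C + 1) ≤ m
  h10 : 10 ≤ m
  hσ : σ + (r + 3) ≤ m
  hc : 2 * ((σ + 5) * (r + 3) : ℕ) ≤ ε * m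
  p0 : 0 < p
  hp1 : (m : ℝ) ^ (3 * r + 14) * p ≤ 1
  hp2 : (m : ℝ) ^ (3 * r + 14) ≤ p * n
  hp3 : (n : ℝ) ^ 2 * p ^ (r + 1) ≤ 1
  hp4 : (n : ℝ) ^ (σ + (r + 3)) * p ^ ((σ + 1) * (r + 3)) ≤ p
  hε : 0 < ε
  hε1 : ε < 1

namespace Nm
variable {C m n : ℕ} {ε : ℝ} (h : Nm σ r C m n p ε)
include h

theorem M : (10 : ℝ) ≤ m := by exact_mod_cast h.h10
theorem pw {i : ℕ} (hi : i ≤ 3 * r + 14) : (m : ℝ) ^ i ≤ (m : ℝ) ^ (3 * r + 14) :=
  pow_le_pow_right₀ (by linarith [h.M]) hi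
theorem pwp {i : ℕ} (hi : i ≤ 3 * r + 14) : (m : ℝ) ^ i * p ≤ 1 :=
  (mul_le_mul_of_nonneg_right (h.pw hi) h.p0.le).trans h.hp1
theorem p1 : p ≤ 1 := by simpa using h.pwp (Nat.zero_le _)
theorem pn : (m : ℝ) ^ 3 ≤ p * n := (h.pw (by omega)).trans h.hp2
theorem pwn : (m : ℝ) ^ (3 * r + 14) ≤ n :=
  h.hp2.trans (mul_le_of_le_one_left (Nat.cast_nonneg n) h.p1)
theorem m3 : 4 * (m : ℝ) ^ 2 + m + 1 ≤ (m : ℝ) ^ 3 := by have := h.M; nlinarith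
theorem em : ε ^ 2 * m ≤ m :=
  mul_le_of_le_one_left (Nat.cast_nonneg m) (pow_le_one₀ h.hε.le h.hε1.le)
theorem n1 : (1 : ℝ) ≤ n := le_trans (by simpa using h.pw (Nat.zero_le _)) h.pwn
theorem u1 : (m : ℝ) ≤ p * ⌈m / p⌉₊ := by
  have := Nat.le_ceil ((m : ℝ) / p); rwa [div_le_iff₀' h.p0] at this
theorem sp : ((2 * (C + 1) * ⌈m / p⌉₊ : ℕ) : ℝ) * p ≤ (m : ℝ) ^ 2 := by
  have h1 := Nat.ceil_lt_add_one (div_nonneg (Nat.cast_nonneg m) h.p0.le)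
  have h2 : (⌈m / p⌉₊ : ℝ) * p ≤ m + 1 := by
    have := mul_le_mul_of_nonneg_right h1.le h.p0.le
    rw [add_mul, div_mul_cancel₀ _ h.p0.ne'] at this; linarith [h.p1]
  have h3 : 5 * ((C : ℝ) + 1) ≤ m := by exact_mod_cast h.hC
  have h4 := mul_le_mul h3 h2 (mul_nonneg (Nat.cast_nonneg _) h.p0.le) (Nat.cast_nonneg _)
  have := h.M
  push_cast; nlinarith

theorem t1 : (4 : ℝ) ^ (2 * (C + 1) * ⌈m / p⌉₊) * Real.exp (-(p * (⌈m / p⌉₊ : ℝ) ^ 2))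
    ≤ n * Real.exp (-(ε ^ 2 * m)) := by
  have h5 : (4 : ℝ) ^ (2 * (C + 1) * ⌈m / p⌉₊) ≤ Real.exp ((2 * (C + 1) * ⌈m / p⌉₊ : ℕ) * 2) := by
    rw [Real.exp_nat_mul]; exact pow_le_pow_left₀ (by norm_num) four_le_exp_two _
  refine (mul_le_mul_of_nonneg_right h5 (Real.exp_pos _).le).trans ?_
  rw [← Real.exp_add, ← one_mul (Real.exp _)]
  refine term_le h.n1 (by positivity) ?_
  have h3 : 5 * ((C : ℝ) + 1) ≤ m := by exact_mod_cast h.hC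
  have u0 : (0 : ℝ) ≤ ⌈m / p⌉₊ := Nat.cast_nonneg _
  have h6 := mul_le_mul_of_nonneg_right (h3.trans h.u1) u0
  have h7 := h.u1.trans (mul_le_of_le_one_left u0 h.p1)
  have h8 := mul_nonneg (Nat.cast_nonneg (α := ℝ) C) u0
  have := h.em
  push_cast; nlinarith

theorem t2 {s : ℝ} (s0 : 0 ≤ s) (hs : s * p ≤ (m : ℝ) ^ 2) : s ^ 5 * p ^ 6 ≤ 1 / 8 := by
  have h1 := pow_le_pow_left₀ (mul_nonneg s0 h.p0.le) hs 5
  have h2 := mul_le_mul_of_nonneg_right h1 h.p0.le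
  have h3 := h.pwp (i := 11) (by omega)
  have h4 := mul_le_mul_of_nonneg_right h.M (mul_nonneg (pow_nonneg (Nat.cast_nonneg (α := ℝ) m) 10)
    h.p0.le)
  nlinarith

theorem few {μ : ℝ} (hμ : 6 * m * μ ≤ p * n) :
    n * Real.exp (3 * μ - ⌈p * n / m⌉₊) ≤ n * Real.exp (-(ε ^ 2 * m)) := by
  refine term_le le_rfl (Nat.cast_nonneg _) ?_
  have M := h.M
  have h1 := Nat.le_ceil (p * n / m)
  rw [div_le_iff₀ (by linarith)] at h1
  have h2 := h.pn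
  have h3 := h.em
  have : 3 * μ - ⌈p * n / m⌉₊ ≤ -m :=
    le_of_mul_le_mul_right (a := (m : ℝ)) (by nlinarith [h.m3, sq_nonneg (m : ℝ)]) (by linarith)
  linarith

theorem f0 {a : ℕ} (ha : a ≤ n) (b : ℕ) : 6 * m * (((b ^ 0 * a * (4 * m ^ 2 * (4 * m ^ 2)) ^ 1 : ℕ) : ℝ) *
    p ^ ((0 + 1) * (1 + 1))) ≤ p * n := by
  have h1 : (a : ℝ) ≤ n := by exact_mod_cast ha
  have h2 := h.pwp (i := 7) (by omega)
  have M := h.M
  have p0 := h.p0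
  have h3 : 96 * ((m : ℝ) ^ 5 * p) ≤ (m : ℝ) ^ 2 * ((m : ℝ) ^ 5 * p) :=
    mul_le_mul_of_nonneg_right (by nlinarith) (by positivity)
  have h4 : 96 * ((m : ℝ) ^ 5 * p) * (p * a) ≤ 1 * (p * n) :=
    mul_le_mul (by nlinarith) (by gcongr) (by positivity) (by norm_num)
  push_cast; nlinarith

theorem f3 {a b s : ℕ} (ha : a ≤ n) (hb : b ≤ n) (hs : s * p ≤ (m : ℝ) ^ 2) :
    6 * m * (((b ^ 1 * a * s ^ r : ℕ) : ℝ) * p ^ ((1 + 1) * (r + 1))) ≤ p * n := by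
  have h1 : (a : ℝ) ≤ n := by exact_mod_cast ha
  have h1' : (b : ℝ) ≤ n := by exact_mod_cast hb
  have M := h.M
  have p0 := h.p0
  calc _ = 6 * m * (s * p) ^ r * (b * a * p ^ (r + 1)) * p := by push_cast; ring
    _ ≤ m * m * ((m : ℝ) ^ 2) ^ r * (n * n * p ^ (r + 1)) * p := by gcongr; linarith
    _ = (m : ℝ) ^ (2 * r + 2) * (n ^ 2 * p ^ (r + 1)) * p := by ring
    _ ≤ n * 1 * p := by gcongr; exacts [(h.pw (by omega)).trans h.pwn, h.hp3]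
    _ = _ := by ring

theorem f1 : 6 * m * ((((σ + (r + 1 + 2) + (4 * m ^ 2 + 1)) * (4 * m ^ 2 + 1) ^ (r + 1 + 2) *
    n ^ (σ + (r + 1 + 2)) : ℕ) : ℝ) * p ^ ((σ + 1) * (r + 1 + 2))) ≤ p * n := by
  have h1 : (σ : ℝ) + (r + 3) ≤ m := by exact_mod_cast h.hσ
  have M := h.M
  have p0 := h.p0
  have h2 := h.m3
  calc _ = 6 * m * (σ + (r + 3) + (4 * (m : ℝ) ^ 2 + 1)) * (4 * (m : ℝ) ^ 2 + 1) ^ (r + 3) *
        (n ^ (σ + (r + 3)) * p ^ ((σ + 1) * (r + 3))) := by push_cast; ring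
    _ ≤ m * m * (m : ℝ) ^ 3 * ((m : ℝ) ^ 3) ^ (r + 3) * p := by
        gcongr; exacts [by linarith, by linarith, by linarith, h.hp4]
    _ = (m : ℝ) ^ (3 * r + 14) * p := by ring
    _ ≤ _ := by rw [mul_comm p]; gcongr; exact h.pwn

theorem low {a b : ℕ} (ha : a ≤ n) (hb : n ≤ 2 * b + 1) :
    a * Real.exp (-(ε ^ 2 * p * b)) ≤ n * Real.exp (-(ε ^ 2 * m)) := by
  refine term_le (by exact_mod_cast ha) (Nat.cast_nonneg _) (neg_le_neg ?_)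
  have h1 : (n : ℝ) ≤ 2 * b + 1 := by exact_mod_cast hb
  have h2 := mul_le_mul_of_nonneg_left h1 h.p0.le
  rw [mul_assoc]
  refine mul_le_mul_of_nonneg_left ?_ (by positivity)
  nlinarith [h.pn, h.m3, h.M, h.p1]

theorem deg {b : ℕ} (hb : n ≤ 2 * b + 1) (hb' : 2 * b ≤ n) : (1 / 2 - 3 * ε) * p * n +
    (((σ + 5) * (r + 3) * ⌈p * n / m⌉₊ : ℕ) : ℝ) ≤ (1 - ε) ^ 2 * p * b := by
  have M := h.M
  have p0 := h.p0
  have e0 := h.hε
  have h1 : (n : ℝ) ≤ 2 * b + 1 := by exact_mod_cast hb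
  have h1' : 2 * (b : ℝ) ≤ n := by exact_mod_cast hb'
  have h2 := mul_le_mul_of_nonneg_left h1 p0.le
  have h2' := mul_le_mul_of_nonneg_left h1' (mul_pos e0 p0).le
  have h3 : (m : ℝ) ≤ p * n := by nlinarith [h.pn, h.m3]
  have h4 : (⌈p * n / m⌉₊ : ℝ) * m ≤ 2 * (p * n) := by
    have h5 := Nat.ceil_lt_add_one (a := p * n / m) (by positivity)
    have := mul_le_mul_of_nonneg_right h5.le (Nat.cast_nonneg (α := ℝ) m)
    rw [add_mul, div_mul_cancel₀ _ (by linarith)] at this; linarith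
  have h5 := mul_le_mul_of_nonneg_right h.hc (Nat.cast_nonneg (α := ℝ) ⌈p * n / m⌉₊)
  have h6 := mul_le_mul_of_nonneg_left h4 e0.le
  have h7 : (1 : ℝ) ≤ ((σ + 5) * (r + 3) : ℕ) := by exact_mod_cast Nat.succ_le_of_lt (by positivity)
  have h8 := mul_le_mul_of_nonneg_left h3 e0.le
  have h9 : 0 ≤ ε ^ 2 * p * b := by positivity
  have := h.hc
  have := h.p1
  rw [Nat.cast_mul _ ⌈p * n / m⌉₊]
  nlinarith

end Nm

theorem bound_all (hσ : 2 ≤ σ) {C m : ℕ} {ε : ℝ} (h : Nm σ r C m (Fintype.card V) p ε)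
    (hexp : 8 * (Fintype.card V * Real.exp (-(ε ^ 2 * m))) ≤ 1 / 4)
    (hΩ : ∀ x y, x ≠ y → s(x, y) ∈ Ω) :
    Pr Ω p (fun R => ¬ ∃ G : SimpleGraph V, (∀ x y, G.Adj x y → s(x, y) ∈ R) ∧
      (HG σ (r + 1)).Free G ∧
      (∀ x, (1 / 2 - 3 * ε) * p * Fintype.card V ≤ ((G.neighborSet x).ncard : ℝ)) ∧
      ¬ G.Colorable C) ≤ 1 / 2 := by
  have h0 := h.p0.le
  have h1 := h.p1
  have M := h.M
  obtain ⟨B, -, hB⟩ := exists_subset_card_eq (s := (univ : Finset V)) (n := Fintype.card V / 2)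
    (by rw [card_univ]; omega)
  have hBc : #Bᶜ = Fintype.card V - Fintype.card V / 2 := by rw [card_compl, hB]
  obtain ⟨S, hS, hSc⟩ := exists_subset_card_eq (s := Bᶜ) (n := 2 * (C + 1) * ⌈m / p⌉₊) (by
    have a1 : (Fintype.card V : ℝ) ≤ 2 * #Bᶜ := by exact_mod_cast (by omega)
    have a2 := mul_le_mul_of_nonneg_left a1 h0
    have a3 : ((2 * (C + 1) * ⌈m / p⌉₊ : ℕ) : ℝ) ≤ #Bᶜ :=
      le_of_mul_le_mul_right (a := p) (by nlinarith [h.sp, h.pn, h.m3]) h.p0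
    exact_mod_cast a3)
  have hBS : Disjoint B S := disjoint_right.mpr fun x hx => mem_compl.mp (hS hx)
  have hsp : #S * p ≤ (m : ℝ) ^ 2 := by rw [hSc]; exact h.sp
  have hn : #B + #S ≤ Fintype.card V := by
    rw [← card_union_of_disjoint hBS]; exact card_le_univ _
  have hKΩ : K B Bᶜ ⊆ Ω := K_subset_iff.mpr fun x hx y hy =>
    hΩ x y fun h => mem_compl.mp hy (h ▸ hx)
  have E1 := Pr_not_G1 (Ω := Ω \ K B Bᶜ) (S := S) h0 h1 (fun x hx y hy hne =>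
    mem_sdiff.mpr ⟨hΩ x y hne, fun h => by
      rcases mem_K.mp h with h | h
      · exact disjoint_left.mp hBS h.1 hx
      · exact disjoint_left.mp hBS h.2 hy⟩) ⌈m / p⌉₊ (4 * m ^ 2)
  have hC : C * (2 * ⌈m / p⌉₊) < #S := by
    have : 0 < ⌈m / p⌉₊ := Nat.ceil_pos.mpr (div_pos (by linarith) h.p0)
    rw [hSc]; nlinarith
  rw [← sdiff_union_of_subset hKΩ]
  refine (Pr_two_stage h0 h1 sdiff_disjoint _ (fun Q => ¬ G1 S ⌈m / p⌉₊ (4 * m ^ 2) Q)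
    (δ := 5 * (Fintype.card V * Real.exp (-(ε ^ 2 * m)))) (by positivity) ?_).trans ?_
  · intro Q _ hQ
    have g := not_not.mp hQ
    have E2 := Pr_not_G2 (σ := σ) (r := r) h0 h1 hBS ⌈p * Fintype.card V / m⌉₊ h.hε h.hε1 g
      (by omega)
    refine le_trans (Pr_mono h0 h1 ?_) (E2.trans ?_)
    · intro R _ hR g'
      obtain ⟨G, a1, a2, a3, a4⟩ := exists_graph hσ hBS g g' C hC
      exact hR ⟨G, a1, a2, fun x => by
        linarith only [a3 x, h.deg (b := #B) (by omega) (by omega)], a4⟩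
    · linarith only [h.low (a := #Bᶜ) (b := #B) (by omega) (by omega),
        h.low (a := #B) (b := #Bᶜ) (by omega) (by omega), h.few (h.f0 hn #B),
        h.few (h.f3 (b := #B) hn (by omega) hsp), h.few h.f1]
  · have t3 : Fintype.card V * Real.exp (3 * (#S * p) - ((4 * m ^ 2 : ℕ) : ℝ)) ≤
        Fintype.card V * Real.exp (-(ε ^ 2 * m)) :=
      term_le le_rfl (Nat.cast_nonneg _) (by push_cast; nlinarith [h.em])
    have t1 := h.t1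
    rw [← hSc] at t1
    have t0 : 0 ≤ Fintype.card V * Real.exp (-(ε ^ 2 * m)) := by positivity
    linarith only [E1, t1, h.t2 (Nat.cast_nonneg _) hsp, t3, hexp, t0]

/-- Admissible parameters exist for infinitely many `n`. -/
theorem exists_params (σ : ℕ) {γ : ℝ} (hγ : 1 / ((σ : ℝ) + 1) < γ) (q : ℕ → ℝ)
    (h1 : ∃ᶠ n : ℕ in atTop, q n ≤ (n : ℝ) ^ (-γ))
    (h2 : ∀ᶠ n : ℕ in atTop, (n : ℝ) ^ (-(1 / 2) : ℝ) ≤ q n) :
    ∃ r, 2 ≤ r ∧ ∀ (C : ℕ) (ε : ℝ), 0 < ε → ε < 1 → ∃ᶠ n : ℕ in atTop, ∃ m,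
      Nm σ r C m n (q n) ε ∧ 8 * (n * Real.exp (-(ε ^ 2 * m))) ≤ 1 / 4 := by
  have γ0 : 0 < γ := lt_trans (by positivity) hγ
  rw [div_lt_iff₀ (by positivity)] at hγ
  obtain ⟨r, hr⟩ := exists_nat_ge (2 + 2 / γ + (σ + γ) / (γ * (σ + 1) - 1))
  have a0 : 0 ≤ 2 / γ := by positivity
  have a1 : 0 ≤ (σ + γ) / (γ * (σ + 1) - 1) := div_nonneg (by positivity) (by linarith)
  have r1 : 2 ≤ γ * (r + 1) := by
    rw [← div_le_iff₀' γ0]; linarith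
  have r2 : σ + γ ≤ (r + 3) * (γ * (σ + 1) - 1) := by
    rw [← div_le_iff₀ (by linarith)]; linarith
  refine ⟨r, by exact_mod_cast (by linarith : (2 : ℝ) ≤ r), fun C ε e0 e1 => ?_⟩
  obtain ⟨η, η0, η1, η2⟩ : ∃ η : ℝ, 0 < η ∧ η * (3 * r + 14 : ℕ) ≤ γ ∧
      η * (3 * r + 14 : ℕ) ≤ 1 / 2 := ⟨min γ (1 / 2) / (3 * r + 14 : ℕ), by positivity,
    by rw [div_mul_cancel₀ _ (by positivity)]; exact min_le_left _ _,
    by rw [div_mul_cancel₀ _ (by positivity)]; exact min_le_right _ _⟩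
  have l1 : Tendsto (fun n : ℕ => (n : ℝ) ^ η) atTop atTop :=
    (tendsto_rpow_atTop η0).comp tendsto_natCast_atTop_atTop
  have l2 : Tendsto (fun n : ℕ => ⌊(n : ℝ) ^ η⌋₊) atTop atTop := tendsto_nat_floor_atTop.comp l1
  have l3 := ((tendsto_rpow_mul_exp_neg_mul_atTop_nhds_zero η⁻¹ (ε ^ 2) (by positivity)).comp
    l1).const_mul (8 * Real.exp (ε ^ 2))
  rw [mul_zero] at l3
  have l4 := (tendsto_natCast_atTop_atTop (R := ℝ).comp l2).const_mul_atTop e0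
  refine h1.mp ?_
  filter_upwards [h2, eventually_ge_atTop 1, l2.eventually_ge_atTop (5 * (C + 1)),
    l2.eventually_ge_atTop 10, l2.eventually_ge_atTop (σ + (r + 3)),
    l4.eventually_ge_atTop (2 * ((σ + 5) * (r + 3) : ℕ)),
    l3.eventually_le_const (show (0 : ℝ) < 1 / 4 by norm_num)] with n b1 b2 b3 b4 b5 b6 b7 b8
  have n1 : (1 : ℝ) ≤ n := by exact_mod_cast b2
  have n0 : (0 : ℝ) < n := by linarith
  have q0 : 0 < q n := lt_of_lt_of_le (by positivity) b1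
  have c1 : ∀ y : ℝ, η * (3 * r + 14 : ℕ) ≤ y → (⌊(n : ℝ) ^ η⌋₊ : ℝ) ^ (3 * r + 14) ≤ n ^ y :=
    fun y hy => (pow_le_pow_left₀ (Nat.cast_nonneg _) (Nat.floor_le (by positivity)) _).trans
      (by rw [← Real.rpow_natCast, ← Real.rpow_mul n0.le]
          exact Real.rpow_le_rpow_of_exponent_le n1 hy)
  have c2 : ∀ a b : ℕ, (a : ℝ) ≤ γ * b → (n : ℝ) ^ a * q n ^ b ≤ 1 := fun a b hab =>
    (mul_le_mul_of_nonneg_left (pow_le_pow_left₀ q0.le b8 b) (by positivity)).trans (by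
      rw [← Real.rpow_natCast, ← Real.rpow_natCast, ← Real.rpow_mul n0.le, ← Real.rpow_add n0]
      exact Real.rpow_le_one_of_one_le_of_nonpos n1 (by linarith))
  refine ⟨_, ⟨b3, b4, b5, b6, q0, ?_, ?_, c2 _ _ (by push_cast; exact r1), ?_, e0, e1⟩,
    le_trans ?_ b7⟩
  · refine (mul_le_mul (c1 γ η1) b8 q0.le (by positivity)).trans ?_
    rw [← Real.rpow_add n0]; simp
  · refine (c1 _ η2).trans (le_trans (le_of_eq ?_) (mul_le_mul_of_nonneg_right b1 n0.le))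
    rw [← Real.rpow_add_one n0.ne']; norm_num
  · have := c2 (σ + (r + 3)) (σ * (r + 3) + (r + 2)) (by push_cast; nlinarith)
    rw [show (σ + 1) * (r + 3) = σ * (r + 3) + (r + 2) + 1 by ring, pow_succ, ← mul_assoc]
    exact mul_le_of_le_one_left q0.le this
  · have := Nat.lt_floor_add_one ((n : ℝ) ^ η)
    simp only [Function.comp]
    rw [Real.rpow_rpow_inv n0.le η0.ne', mul_assoc, mul_left_comm (Real.exp _), ← Real.exp_add]
    gcongr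
    nlinarith [mul_le_mul_of_nonneg_left this.le (sq_nonneg ε)]

end Pool.Agent.P.MP_4bfc47_co.All
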